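import Mathlib

set_option autoImplicit false

namespace Pool.Agent.Results.MP_fb0157_co.Nonagon

/-- the `n`-gon `x` (indices mod `n`) is `k`-equilateral -/
def Equilateral {n d : ℕ} (k : ℕ) (x : ZMod n → EuclideanSpace ℝ (Fin d)) : Prop :=
  ∀ j : ℕ, 1 ≤ j → j ≤ k → ∃ c : ℝ, ∀ i : ZMod n, dist (x i) (x (i + j)) = c

/-- the affine hull of the vertices has dimension exactly `m` -/
def Spans {n d : ℕ} (m : ℕ) (x : ZMod n → EuclideanSpace ℝ (Fin d)) : Prop :=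
  Module.finrank ℝ (affineSpan ℝ (Set.range x)).direction = m

noncomputable def P (s : ℝ) : Fin 9 → EuclideanSpace ℝ (Fin 3) :=
  ![!₂[6, 0, 0], !₂[-6, 0, 2 * s], !₂[6, 0, 4 * s],
    !₂[-3, 3 * s, 0], !₂[3, -3 * s, 2 * s], !₂[-3, 3 * s, 4 * s],
    !₂[-3, -3 * s, 0], !₂[3, 3 * s, 2 * s], !₂[-3, -3 * s, 4 * s]]

theorem eqd (s : ℝ) (hs : s ^ 2 = 3) (j : Fin 9) (c : ℝ)
    (h : (j = 1 ∧ c = 156) ∨ (j = 2 ∧ c = 48) ∨ (j = 3 ∧ c = 108)) (i : Fin 9) :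
    dist (P s i) (P s (i + j)) = √c := by
  rw [EuclideanSpace.dist_eq]
  congr 1
  simp only [Fin.sum_univ_three, Real.dist_eq, sq_abs]
  rcases h with ⟨rfl, rfl⟩ | ⟨rfl, rfl⟩ | ⟨rfl, rfl⟩ <;> fin_cases i <;>
    simp [P] <;> nlinarith

theorem inj (s : ℝ) (hs : s ^ 2 = 3) : Function.Injective (P s) := by
  have hs0 : s ≠ 0 := by intro h; rw [h] at hs; norm_num at hs
  intro a b h
  have h0 := congrArg (fun v => v 0) h
  have h1 := congrArg (fun v => v 1) h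
  have h2 := congrArg (fun v => v 2) h
  fin_cases a <;> fin_cases b <;> simp [P, hs0] at h0 h1 h2 ⊢ <;>
    first | (exact hs0 (by linarith)) | (norm_num at h0)

theorem sp (s : ℝ) (hs : s ^ 2 = 3) : (affineSpan ℝ (Set.range (P s))).direction = ⊤ := by
  have hs0 : s ≠ 0 := by intro h; rw [h] at hs; norm_num at hs
  have m : ∀ a b, P s a -ᵥ P s b ∈ (affineSpan ℝ (Set.range (P s))).direction := fun a b =>
    AffineSubspace.vsub_mem_direction (mem_affineSpan ℝ ⟨a, rfl⟩) (mem_affineSpan ℝ ⟨b, rfl⟩)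
  rw [eq_top_iff]
  intro v _
  have e : v = (v 0 / 12) • (P s 0 -ᵥ P s 1) + ((v 2 + v 0 * s / 6) / (4 * s)) • (P s 2 -ᵥ P s 0)
      + (v 1 / (6 * s)) • (P s 3 -ᵥ P s 6) := by
    ext i
    fin_cases i <;> simp [P] <;> field_simp <;> ring
  rw [e]
  exact Submodule.add_mem _ (Submodule.add_mem _ (Submodule.smul_mem _ _ (m _ _))
    (Submodule.smul_mem _ _ (m _ _))) (Submodule.smul_mem _ _ (m _ _))

theorem result :
    (∃ x : ZMod 9 → EuclideanSpace ℝ (Fin 3),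
      Function.Injective x ∧ Equilateral 3 x ∧ Spans 3 x) ∧
    ¬ (∀ k n : ℕ, 2 ≤ k → Odd n → 2 * k + 1 < n →
      ∀ (d : ℕ) (x : ZMod n → EuclideanSpace ℝ (Fin d)),
        Equilateral (k + 1) x → ¬ Spans (2 * k - 1) x) := by
  have hs : (√3 : ℝ) ^ 2 = 3 := Real.sq_sqrt (by norm_num)
  have h : ∃ x : ZMod 9 → EuclideanSpace ℝ (Fin 3),
      Function.Injective x ∧ Equilateral 3 x ∧ Spans 3 x := by
    refine ⟨P √3, inj _ hs, fun j h1 h3 => ?_, ?_⟩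
    · interval_cases j
      · exact ⟨_, eqd _ hs 1 156 (by simp)⟩
      · exact ⟨_, eqd _ hs 2 48 (by simp)⟩
      · exact ⟨_, eqd _ hs 3 108 (by simp)⟩
    · have := sp _ hs
      unfold Spans
      erw [this]
      simp
  refine ⟨h, fun H => ?_⟩
  obtain ⟨x, -, h1, h2⟩ := h
  exact H 2 9 le_rfl (by decide) (by norm_num) 3 x h1 h2

end Pool.Agent.Results.MP_fb0157_co.Nonagon
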